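import Pool.Agent.H25.MM.H338R2.AS.Defs

set_option autoImplicit false

open Polynomial MeasureTheory

open scoped ComplexConjugate

namespace Pool.Agent.H338R2.AS

private lemma T1_int (N : ℤ) :
    ∫ t in (0:ℝ)..1, Complex.exp (2 * Real.pi * Complex.I * N * t) = if N = 0 then 1 else 0 := by
  split_ifs with h
  · subst h; simp
  · have hc : (2 * Real.pi * Complex.I * N : ℂ) ≠ 0 := by
      simp [Real.pi_ne_zero, h, Complex.I_ne_zero]
    rw [integral_exp_mul_complex hc]
    have : Complex.exp (2 * Real.pi * Complex.I * N * (1:ℝ)) = 1 := by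
      rw [Complex.exp_eq_one_iff]; exact ⟨N, by push_cast; ring⟩
    rw [this]; simp

private def T1_u {k i : ℕ} (s s' : Fin i → Fin k) (j : Fin k) : ℤ :=
  (∑ l, if s l = j then 1 else 0) - ∑ l, if s' l = j then 1 else 0

private lemma T1_sum {k i : ℕ} (s s' : Fin i → Fin k) (x : Fin k → ℤ) :
    ∑ j, T1_u s s' j * x j = ∑ l, x (s l) - ∑ l, x (s' l) := by
  have key : ∀ s : Fin i → Fin k, ∑ j, (∑ l, if s l = j then (1 : ℤ) else 0) * x j
      = ∑ l, x (s l) := by
    intro s
    simp only [Finset.sum_mul]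
    rw [Finset.sum_comm]
    refine Finset.sum_congr rfl fun l _ => ?_
    simp
  simp only [T1_u, sub_mul, Finset.sum_sub_distrib]
  rw [key, key]

private lemma T1_abs {k i : ℕ} (s s' : Fin i → Fin k) : ∑ j, |T1_u s s' j| ≤ 2 * i := by
  have key : ∀ s : Fin i → Fin k, ∑ j, (∑ l, if s l = j then (1 : ℤ) else 0) = i := by
    intro s
    rw [Finset.sum_comm]
    simp
  have h1 : ∀ j, |T1_u s s' j| ≤ (∑ l, if s l = j then (1 : ℤ) else 0)
      + ∑ l, if s' l = j then (1 : ℤ) else 0 := by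
    intro j
    have n : ∀ s : Fin i → Fin k, 0 ≤ ∑ l, if s l = j then (1 : ℤ) else 0 := by
      intro s
      exact Finset.sum_nonneg fun l _ => by split_ifs <;> norm_num
    unfold T1_u
    rw [abs_le]
    constructor <;> linarith [n s, n s']
  calc ∑ j, |T1_u s s' j| ≤ ∑ j, ((∑ l, if s l = j then (1 : ℤ) else 0)
      + ∑ l, if s' l = j then (1 : ℤ) else 0) := Finset.sum_le_sum fun j _ => h1 j
    _ = 2 * i := by rw [Finset.sum_add_distrib, key, key]; ring

private lemma T1_expand {k : ℕ} (c : Fin k → ℂ) (a : Fin k → ℤ) (i : ℕ) (t : ℝ) :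
    ((‖es c a t‖ ^ (2 * i) : ℝ) : ℂ) = ∑ s : Fin i → Fin k, ∑ s' : Fin i → Fin k,
      ((∏ l, c (s l)) * (∏ l, conj (c (s' l)))) *
        Complex.exp (2 * Real.pi * Complex.I * ((∑ l, a (s l) - ∑ l, a (s' l) : ℤ) : ℂ) * t) := by
  have h0 : ((‖es c a t‖ ^ (2 * i) : ℝ) : ℂ) = es c a t ^ i * (conj (es c a t)) ^ i := by
    rw [← mul_pow, Complex.mul_conj, Complex.normSq_eq_norm_sq, pow_mul]
    push_cast
    rfl
  have h1 : es c a t ^ i = ∑ s : Fin i → Fin k, ∏ l, (c (s l) *
      Complex.exp (2 * Real.pi * Complex.I * (a (s l)) * t)) := by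
    unfold es
    rw [Fintype.sum_pow]
  have h2 : (conj (es c a t)) ^ i = ∑ s : Fin i → Fin k, ∏ l, (conj (c (s l)) *
      Complex.exp (-(2 * Real.pi * Complex.I * (a (s l)) * t))) := by
    unfold es
    rw [map_sum, Fintype.sum_pow]
    refine Finset.sum_congr rfl fun s _ => Finset.prod_congr rfl fun l _ => ?_
    rw [map_mul, ← Complex.exp_conj]
    congr 2
    simp only [map_mul, Complex.conj_I, Complex.conj_ofReal, map_ofNat, map_intCast]
    ring
  rw [h0, h1, h2, Finset.sum_mul_sum]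
  refine Finset.sum_congr rfl fun s _ => Finset.sum_congr rfl fun s' _ => ?_
  rw [Finset.prod_mul_distrib, Finset.prod_mul_distrib, ← Complex.exp_sum, ← Complex.exp_sum]
  have : Complex.exp (2 * Real.pi * Complex.I * ((∑ l, a (s l) - ∑ l, a (s' l) : ℤ) : ℂ) * t)
      = Complex.exp (∑ l, 2 * Real.pi * Complex.I * (a (s l)) * t)
        * Complex.exp (∑ l, -(2 * Real.pi * Complex.I * (a (s' l)) * t)) := by
    rw [← Complex.exp_add]
    congr 1
    rw [Finset.sum_neg_distrib, ← Finset.sum_mul, ← Finset.sum_mul, ← Finset.mul_sum,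
      ← Finset.mul_sum]
    push_cast
    ring
  rw [this]
  ring

private lemma T1_integral {k : ℕ} (c : Fin k → ℂ) (a : Fin k → ℤ) (i : ℕ) :
    ((∫ t in (0:ℝ)..1, ‖es c a t‖ ^ (2 * i) : ℝ) : ℂ) = ∑ s : Fin i → Fin k,
      ∑ s' : Fin i → Fin k, ((∏ l, c (s l)) * (∏ l, conj (c (s' l)))) *
        (if (∑ l, a (s l) - ∑ l, a (s' l) : ℤ) = 0 then 1 else 0) := by
  rw [← intervalIntegral.integral_ofReal]
  simp only [T1_expand c a i]
  rw [intervalIntegral.integral_finsetSum]
  · refine Finset.sum_congr rfl fun s _ => ?_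
    rw [intervalIntegral.integral_finsetSum]
    · refine Finset.sum_congr rfl fun s' _ => ?_
      rw [intervalIntegral.integral_const_mul, T1_int]
    · intro s' _
      apply Continuous.intervalIntegrable
      fun_prop
  · intro s _
    apply Continuous.intervalIntegrable
    fun_prop

/-- TASK T1 -/
theorem moment_eq {k m : ℕ} (c : Fin k → ℂ) (a d : Fin k → ℤ) (h : Sim m a d) {i : ℕ}
    (hi : i ≤ m) :
    ∫ t in (0:ℝ)..1, ‖es c a t‖ ^ (2 * i) = ∫ t in (0:ℝ)..1, ‖es c d t‖ ^ (2 * i) := by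
  have key : ((∫ t in (0:ℝ)..1, ‖es c a t‖ ^ (2 * i) : ℝ) : ℂ)
      = ((∫ t in (0:ℝ)..1, ‖es c d t‖ ^ (2 * i) : ℝ) : ℂ) := by
    rw [T1_integral, T1_integral]
    refine Finset.sum_congr rfl fun s _ => Finset.sum_congr rfl fun s' _ => ?_
    congr 1
    have h1 : ∑ j, T1_u s s' j = 0 := by
      have := T1_sum s s' (fun _ => 1)
      simpa using this
    have h2 : ∑ j, |T1_u s s' j| ≤ 2 * (m : ℤ) := by
      refine (T1_abs s s').trans ?_
      have : (i : ℤ) ≤ m := by exact_mod_cast hi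
      linarith
    have h3 := h (T1_u s s') h1 h2
    rw [T1_sum, T1_sum] at h3
    exact if_congr h3 rfl rfl
  exact_mod_cast key

end Pool.Agent.H338R2.AS
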