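import Pool.Agent.H25.MM.H338R2.AS.Defs
import Pool.Agent.H25.MM.H338R2.AS.T2a

set_option autoImplicit false

open Polynomial MeasureTheory

namespace Pool.Agent.H338R2.AS

private lemma T2_shift {k : ℕ} (c : Fin k → ℂ) (a : Fin k → ℤ) (n : ℤ) (t : ℝ) :
    ‖es c a t‖ = ‖es c (fun l => a l - n) t‖ := by
  have h : es c a t = Complex.exp ((2 * Real.pi * n * t : ℝ) * Complex.I) *
      es c (fun l => a l - n) t := by
    unfold es
    rw [Finset.mul_sum]
    refine Finset.sum_congr rfl fun j _ => ?_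
    rw [mul_left_comm, ← Complex.exp_add]
    congr 2
    push_cast
    ring
  rw [h, norm_mul, Complex.norm_exp_ofReal_mul_I, one_mul]

private lemma T2_exists_pivot {r : ℕ} (a : Fin (r + 2) → ℤ) (ha : Function.Injective a)
    (j : Fin (r + 2)) : ∃ (i₀ : Fin (r + 2)) (D : ℕ), 1 ≤ D ∧ (D : ℤ) ≤ 2 * |a j - a i₀| ∧
      ∀ l, |a l - a i₀| ≤ D := by
  obtain ⟨i₁, h₁⟩ := Finite.exists_min a
  obtain ⟨i₂, h₂⟩ := Finite.exists_max a
  have hne : i₁ ≠ i₂ := by
    intro h
    have h01 : a 0 = a 1 := by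
      have e0 := h₁ 0
      have e1 := h₁ 1
      have f0 := h₂ 0
      have f1 := h₂ 1
      rw [h] at e0 e1
      omega
    have := ha h01
    have h' : (0 : Fin (r + 2)).val = (1 : Fin (r + 2)).val := by rw [this]
    simp at h'
  have hlt : a i₁ < a i₂ := lt_of_le_of_ne (h₁ i₂) (fun h => hne (ha h))
  have hD : ((a i₂ - a i₁).toNat : ℤ) = a i₂ - a i₁ := Int.toNat_of_nonneg (by omega)
  by_cases hj : a i₂ - a i₁ ≤ 2 * (a j - a i₁)
  · refine ⟨i₁, (a i₂ - a i₁).toNat, by omega, ?_, fun l => ?_⟩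
    · rw [hD, abs_of_nonneg (by have := h₁ j; omega)]; exact hj
    · rw [hD, abs_of_nonneg (by have := h₁ l; omega)]
      have := h₂ l; omega
  · refine ⟨i₂, (a i₂ - a i₁).toNat, by omega, ?_, fun l => ?_⟩
    · rw [hD, abs_of_nonpos (by have := h₂ j; omega)]; omega
    · rw [hD, abs_of_nonpos (by have := h₂ l; omega)]
      have := h₁ l; omega

/-- TASK T2 -/
theorem small_values {r : ℕ} (c : Fin (r + 1) → ℂ) (a : Fin (r + 1) → ℤ)
    (ha : Function.Injective a) (j : Fin (r + 1)) (s : ℝ) (hs : 0 < s) :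
    volume {t : ℝ | t ∈ Set.Icc (0:ℝ) 1 ∧ ‖es c a t‖ < (s / 2) ^ r * ‖c j‖} ≤
      ENNReal.ofReal (20 * r * s) := by
  induction r with
  | zero =>
    have hemp : {t : ℝ | t ∈ Set.Icc (0:ℝ) 1 ∧ ‖es c a t‖ < (s / 2) ^ 0 * ‖c j‖} = ∅ := by
      ext t
      simp only [Set.mem_ofPred_eq, Set.mem_empty_iff_false, iff_false, not_and, not_lt]
      intro _
      have hj : j = 0 := Fin.ext (by have := j.isLt; simp only [Fin.val_zero]; omega)
      have : ‖es c a t‖ = ‖c 0‖ := by
        unfold es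
        rw [Fin.sum_univ_one, norm_mul]
        have : (2 * Real.pi * Complex.I * (a 0) * t : ℂ)
            = ((2 * Real.pi * (a 0) * t : ℝ) : ℂ) * Complex.I := by push_cast; ring
        rw [this, Complex.norm_exp_ofReal_mul_I, mul_one]
      rw [this, hj, pow_zero, one_mul]
    rw [hemp, measure_empty]
    exact bot_le
  | succ r ih =>
    by_cases hH : ‖c j‖ = 0
    · have hemp : {t : ℝ | t ∈ Set.Icc (0:ℝ) 1 ∧ ‖es c a t‖ < (s / 2) ^ (r + 1) * ‖c j‖} = ∅ := by
        ext t
        simp only [Set.mem_ofPred_eq, Set.mem_empty_iff_false, iff_false, not_and, not_lt]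
        intro _
        rw [hH, mul_zero]; exact norm_nonneg _
      rw [hemp, measure_empty]
      exact bot_le
    have hHpos : 0 < ‖c j‖ := lt_of_le_of_ne (norm_nonneg _) (Ne.symm hH)
    obtain ⟨i₀, D, hD, hjD, hall⟩ := T2_exists_pivot a ha j
    have hji : j ≠ i₀ := by
      rintro rfl
      simp only [sub_self, abs_zero, mul_zero] at hjD
      omega
    obtain ⟨j', hj'⟩ := Fin.exists_succAbove_eq hji
    have hDpos : (0 : ℝ) < D := by exact_mod_cast (by omega : 0 < D)
    set b : Fin (r + 2) → ℤ := fun l => a l - a i₀ with hb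
    set c' : Fin (r + 1) → ℂ := fun l => c (i₀.succAbove l) * ((b (i₀.succAbove l) : ℂ) / D)
      with hc'
    set b' : Fin (r + 1) → ℤ := fun l => b (i₀.succAbove l) with hb'
    have hb'inj : Function.Injective b' := by
      intro x y hxy
      simp only [hb', hb] at hxy
      have : a (i₀.succAbove x) = a (i₀.succAbove y) := by omega
      exact Fin.succAbove_right_injective (ha this)
    have hder : ∀ t : ℝ, ‖es (fun l => 2 * Real.pi * Complex.I * (b l) * c l) b t‖
        = 2 * Real.pi * D * ‖es c' b' t‖ := by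
      intro t
      have e : es (fun l => 2 * Real.pi * Complex.I * (b l) * c l) b t
          = (2 * Real.pi * D : ℝ) * Complex.I * es c' b' t := by
        have hDC : (D : ℂ) ≠ 0 := by exact_mod_cast (by omega : D ≠ 0)
        unfold es
        rw [Fin.sum_univ_succAbove _ i₀]
        have hz : (b i₀ : ℂ) = 0 := by simp [hb]
        have h0 : 2 * Real.pi * Complex.I * (b i₀) * c i₀ *
            Complex.exp (2 * Real.pi * Complex.I * (b i₀) * t) = 0 := by rw [hz]; ring
        beta_reduce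
        rw [h0, zero_add, Finset.mul_sum]
        refine Finset.sum_congr rfl fun l _ => ?_
        simp only [hc', hb']
        push_cast
        field_simp
      rw [e, norm_mul, norm_mul, Complex.norm_I, mul_one, Complex.norm_real, Real.norm_eq_abs,
        abs_of_nonneg (by positivity)]
    have hc'j : ‖c j‖ / 2 ≤ ‖c' j'‖ := by
      simp only [hc']
      rw [hj', norm_mul, norm_div, Complex.norm_intCast, Complex.norm_natCast]
      have h1 : (1 : ℝ) / 2 ≤ |((b j : ℤ) : ℝ)| / D := by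
        rw [div_le_div_iff₀ (by norm_num) hDpos]
        have : ((D : ℤ) : ℝ) ≤ ((2 * |b j| : ℤ) : ℝ) := by exact_mod_cast hjD
        push_cast at this
        linarith
      calc ‖c j‖ / 2 = ‖c j‖ * (1 / 2) := by ring
        _ ≤ ‖c j‖ * (|((b j : ℤ) : ℝ)| / D) := mul_le_mul_of_nonneg_left h1 hHpos.le
    set T : ℝ := (s / 2) ^ (r + 1) * ‖c j‖ with hT
    set κ : ℝ := Real.pi * D * ((s / 2) ^ r * ‖c j‖ / 2) with hκ
    have hTpos : 0 < T := by positivity
    have hκpos : 0 < κ := by positivity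
    have hsub : {t : ℝ | t ∈ Set.Icc (0:ℝ) 1 ∧ ‖es c a t‖ < T} ⊆
        {t : ℝ | t ∈ Set.Icc (0:ℝ) 1 ∧ ‖es c b t‖ < T ∧
          2 * κ ≤ ‖es (fun l => 2 * Real.pi * Complex.I * (b l) * c l) b t‖} ∪
        {t : ℝ | t ∈ Set.Icc (0:ℝ) 1 ∧ ‖es c' b' t‖ < (s / 2) ^ r * ‖c' j'‖} := by
      rintro t ⟨ht, hlt⟩
      by_cases h : ‖es c' b' t‖ < (s / 2) ^ r * ‖c' j'‖
      · exact Or.inr ⟨ht, h⟩
      · left
        refine ⟨ht, ?_, ?_⟩
        · rw [← T2_shift c a (a i₀) t]; exact hlt
        · rw [hder, hκ]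
          push Not at h
          have h2 : (s / 2) ^ r * (‖c j‖ / 2) ≤ ‖es c' b' t‖ :=
            (mul_le_mul_of_nonneg_left hc'j (by positivity)).trans h
          calc 2 * (Real.pi * D * ((s / 2) ^ r * ‖c j‖ / 2))
              = 2 * Real.pi * D * ((s / 2) ^ r * (‖c j‖ / 2)) := by ring
            _ ≤ 2 * Real.pi * D * ‖es c' b' t‖ := mul_le_mul_of_nonneg_left h2 (by positivity)
    have hm1 := level_lemma c b D hD hall T κ hTpos hκpos
    have hm2 := ih c' b' hb'inj j'
    have hTκ : 20 * (D : ℝ) * (T / κ) ≤ 20 * s := by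
      have hpi : (1 : ℝ) ≤ Real.pi := by linarith [Real.pi_gt_three]
      have e : 20 * (D : ℝ) * (T / κ) = 20 * s / Real.pi := by
        rw [hT, hκ]
        have hpi0 : Real.pi ≠ 0 := Real.pi_ne_zero
        have hs0 : (s / 2) ^ r ≠ 0 := by positivity
        field_simp
        ring
      rw [e, div_le_iff₀ (by linarith)]
      nlinarith
    calc volume {t : ℝ | t ∈ Set.Icc (0:ℝ) 1 ∧ ‖es c a t‖ < T}
        ≤ volume ({t : ℝ | t ∈ Set.Icc (0:ℝ) 1 ∧ ‖es c b t‖ < T ∧
            2 * κ ≤ ‖es (fun l => 2 * Real.pi * Complex.I * (b l) * c l) b t‖} ∪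
          {t : ℝ | t ∈ Set.Icc (0:ℝ) 1 ∧ ‖es c' b' t‖ < (s / 2) ^ r * ‖c' j'‖}) :=
          measure_mono hsub
      _ ≤ _ := measure_union_le _ _
      _ ≤ ENNReal.ofReal (20 * D * (T / κ)) + ENNReal.ofReal (20 * r * s) := add_le_add hm1 hm2
      _ ≤ ENNReal.ofReal (20 * s) + ENNReal.ofReal (20 * r * s) :=
          add_le_add (ENNReal.ofReal_le_ofReal hTκ) le_rfl
      _ = ENNReal.ofReal (20 * ((r + 1 : ℕ) : ℝ) * s) := by
          rw [← ENNReal.ofReal_add (by positivity) (by positivity)]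
          congr 1
          push_cast
          ring

end Pool.Agent.H338R2.AS
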