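import Mathlib
import Pool.Agent.H25.MM.H338R2.AS.Defs
import Pool.Agent.H25.MM.H338R2.AS.T5
import Pool.Agent.H25.MM.H338R2.AS.T6a
import Pool.Agent.H25.MM.H338R2.AS.T3
import Pool.Agent.H25.MM.H338R2.AS.T4

/-!
# Assembly
-/

set_option autoImplicit false

open Polynomial Filter Topology

namespace Pool.Agent.H338R2.AS

lemma lm_nonneg (F : ℤ[X]) : 0 ≤ lm F := by
  by_cases hF : F = 0
  · rw [hF, lm_zero]
  · rw [← lm_eq_log hF]
    exact Real.log_nonneg (H388SL.one_le_MM hF)

lemma sp_natDegree_le {k : ℕ} (c : Fin k → ℤ) (a : Fin k → ℕ) (A : ℕ) (h : ∀ j, a j ≤ A) :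
    (sp c a).natDegree ≤ A := by
  unfold sp
  apply natDegree_sum_le_of_forall_le
  intro j _
  exact (natDegree_C_mul_X_pow_le _ _).trans (h j)

lemma sim_inj {k m : ℕ} (hm : 1 ≤ m) {a d : Fin k → ℕ}
    (h : Sim m (fun j => (a j : ℤ)) (fun j => (d j : ℤ))) (hd : Function.Injective d) :
    Function.Injective a := by
  intro i j hij
  by_contra hne
  have h1 := h (Pi.single i 1 - Pi.single j 1) (by
    simp [Finset.sum_sub_distrib]) (by
    calc ∑ l, |(Pi.single i 1 - Pi.single j 1 : Fin k → ℤ) l|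
        ≤ ∑ l, (|(Pi.single i 1 : Fin k → ℤ) l| + |(Pi.single j 1 : Fin k → ℤ) l|) := by
          apply Finset.sum_le_sum
          intro l _
          exact abs_sub _ _
      _ = 2 := by
          rw [Finset.sum_add_distrib]
          have h2 : ∀ i : Fin k, ∑ l, |(Pi.single i 1 : Fin k → ℤ) l| = 1 := by
            intro i
            rw [Finset.sum_eq_single i]
            · simp
            · intro b _ hb
              rw [Pi.single_eq_of_ne hb]; simp
            · simp
          rw [h2, h2]; norm_num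
      _ ≤ 2 * m := by exact_mod_cast (by omega : 2 ≤ 2 * m))
  have hval : ∀ b : Fin k → ℕ, ∑ l, (Pi.single i 1 - Pi.single j 1 : Fin k → ℤ) l * (b l : ℤ) =
      b i - b j := by
    intro b
    simp [sub_mul, Finset.sum_sub_distrib, Pi.single_apply]
  rw [hval, hval] at h1
  have h2 := h1.mp (by rw [hij]; ring)
  apply hne
  apply hd
  omega

/-- every nonzero integer polynomial is `sp c a` with nonzero coefficients -/
lemma exists_sp (F : ℤ[X]) {k : ℕ} (hk : F.support.card = k) : ∃ (c : Fin k → ℤ) (a : Fin k → ℕ),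
    (∀ j, c j ≠ 0) ∧ Function.Injective a ∧ F = sp c a := by
  let e := F.support.orderEmbOfFin hk
  refine ⟨fun j => F.coeff (e j), fun j => e j, ?_, e.injective, ?_⟩
  · intro j
    exact mem_support_iff.mp (F.support.orderEmbOfFin_mem hk j)
  · unfold sp
    have h1 : ∑ j : Fin k, C (F.coeff (e j)) * X ^ (e j : ℕ) =
        ∑ i ∈ Finset.univ.map e.toEmbedding, C (F.coeff i) * X ^ i := by
      rw [Finset.sum_map]; rfl
    rw [h1]
    have h2 : Finset.univ.map e.toEmbedding = F.support := by
      have := Finset.map_orderEmbOfFin_univ F.support hk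
      exact this
    rw [h2]
    exact F.as_sum_support_C_mul_X_pow

theorem monomial_gap : ∃ c : ℝ, 0 < c ∧ ∀ F : ℤ[X], 0 < lm F →
    c / ((F.support.card : ℝ) ^ 6 * (Real.log (2 * F.support.card)) ^ 3) ≤ lm F := by
  obtain ⟨c, hc, hdob⟩ := dobr_poly
  obtain ⟨B, hB, hexp⟩ := t6_exp c hc
  have hlog2 : 0 < Real.log 2 := Real.log_pos (by norm_num)
  set C0 : ℝ := c / (35152 * (B + 3) ^ 3) with hC0
  have hC0pos : 0 < C0 := by positivity
  refine ⟨min C0 ((Real.log 2) ^ 4), by positivity, ?_⟩
  intro F hF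
  have hF0 : F ≠ 0 := by
    rintro rfl
    rw [lm_zero] at hF; exact lt_irrefl _ hF
  have hkpos : 0 < F.support.card := Finset.card_pos.mpr (Polynomial.support_nonempty.mpr hF0)
  generalize hk : F.support.card = k at hkpos ⊢
  obtain ⟨cf, d, hcf, hd, hFs⟩ := exists_sp F hk
  rcases Nat.lt_or_ge k 2 with hk1 | hk2
  · -- monomials
    have hk1 : k = 1 := by omega
    subst hk1
    have h1 : F = C (cf 0) * X ^ (d 0) := by rw [hFs, sp]; simp
    have h2 : lm F = Real.log |(cf 0 : ℝ)| := by
      rw [h1, C_mul_X_pow_eq_monomial, lm, Polynomial.map_monomial, logMahlerMeasure_monomial,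
        eq_intCast, Complex.norm_intCast]
    have h5 : 2 ≤ |cf 0| := by
      by_contra hlt
      have h6 : |cf 0| ≤ 1 := by omega
      have h7 : 1 ≤ |cf 0| := Int.one_le_abs (hcf 0)
      have h8 : |cf 0| = 1 := le_antisymm h6 h7
      have h9 : |(cf 0 : ℝ)| = 1 := by exact_mod_cast h8
      rw [h2, h9, Real.log_one] at hF
      exact lt_irrefl _ hF
    have h6 : (2:ℝ) ≤ |(cf 0 : ℝ)| := by exact_mod_cast h5
    rw [h2]
    have h7 : Real.log 2 ≤ Real.log |(cf 0 : ℝ)| := Real.log_le_log (by norm_num) h6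
    refine le_trans ?_ h7
    have h8 : min C0 ((Real.log 2) ^ 4) ≤ (Real.log 2) ^ 4 := min_le_right _ _
    norm_num
    rw [div_le_iff₀ (by positivity)]
    calc min C0 ((Real.log 2) ^ 4) ≤ (Real.log 2) ^ 4 := h8
      _ = Real.log 2 * Real.log 2 ^ 3 := by ring
  · -- at least two monomials
    obtain ⟨r, rfl⟩ : ∃ r, k = r + 1 := ⟨k - 1, by omega⟩
    have hr : 1 ≤ r := by omega
    set K : ℝ := (r:ℝ) + 1 with hK
    have hK2 : (2:ℝ) ≤ K := by
      have : (1:ℝ) ≤ r := by exact_mod_cast hr
      rw [hK]; linarith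
    have hKcast : ((r + 1 : ℕ) : ℝ) = K := by push_cast; rfl
    have hlogK : 0 < Real.log (2 * K) := Real.log_pos (by linarith)
    have hlogK1 : 1 ≤ Real.log (2 * K) := by
      have h1 : Real.log 4 ≤ Real.log (2 * K) := Real.log_le_log (by norm_num) (by linarith)
      have h2 : Real.log 4 = 2 * Real.log 2 := by
        rw [show (4:ℝ) = 2 ^ 2 by norm_num, Real.log_pow]; norm_num
      have := Real.log_two_gt_d9
      linarith
    set η : ℕ → ℝ := fun n => 200 * K ^ 2 * (n + 1) / 2 ^ n with hη
    set gap : ℕ → ℝ := fun n => c / (26 * K ^ 2 * (n + 1)) ^ 3 with hgap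
    set x : ℝ := lm F with hx
    -- the basic alternative
    have halt : ∀ n : ℕ, x ≤ η n ∨ gap n - η n ≤ x := by
      intro n
      obtain ⟨a, hsim, ha⟩ := small_rep (k := r + 1) (m := mm r n) (one_le_mm r n) d
      have hainj := sim_inj (one_le_mm r n) hsim hd
      have hcmp := log_compare hr (one_le_mm r n) cf hcf a d hainj hd hsim (1 / 2 ^ n)
        (by positivity) (by
          rw [div_le_one (by positivity)]
          exact one_le_pow₀ (by norm_num))
      have hle := le_trans hcmp (t6_eta r n hr)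
      rw [← hFs, ← hx] at hle
      have hle' : |lm (sp cf a) - x| ≤ η n := hle
      rw [abs_le] at hle'
      rcases (lm_nonneg (sp cf a)).eq_or_lt with h0 | h0
      · left
        rw [← h0] at hle'
        linarith [hle'.1]
      · right
        set A : ℕ := 3 * ((4 * mm r n + 1) ^ (r + 1) + 1) * (2 * mm r n + 1) ^ (r + 1) with hA
        have hA1 : 1 ≤ A := by
          have : 0 < A := by positivity
          exact this
        have h1 := hdob (sp cf a) h0 A hA1 (sp_natDegree_le cf a A ha)
        have h2 := t6_deg r n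
        rw [← hA] at h2
        have hA1' : (1:ℝ) ≤ A := by exact_mod_cast hA1
        have h3 : 0 < Real.log (2 * (A:ℝ)) := Real.log_pos (by linarith)
        have h4 : gap n ≤ c / (Real.log (2 * (A:ℝ))) ^ 3 := by
          rw [hgap]
          simp only
          have : Real.log (2 * (A:ℝ)) ≤ 26 * K ^ 2 * (n + 1) := h2
          gcongr
        linarith [hle'.2]
    -- choice of the starting point
    set n0 : ℕ := ⌈B * Real.log (2 * K)⌉₊ with hn0
    have hn0le : B * Real.log (2 * K) ≤ n0 := Nat.le_ceil _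
    have hmain : ∀ n : ℕ, n0 ≤ n → 7030400 * K ^ 8 * (n + 2) ^ 4 < c * 2 ^ n := by
      intro n hn
      have h1 := hexp (r + 1) n hk2 (by
        rw [hKcast]
        exact hn0le.trans (by exact_mod_cast hn))
      rwa [hKcast] at h1
    have hetan : ∀ n : ℕ, n0 ≤ n → 2 * η n < gap (n + 1) := by
      intro n hn
      have h1 := hmain n hn
      rw [hη, hgap]
      simp only
      push_cast
      rw [lt_div_iff₀ (by positivity), mul_div_assoc', div_mul_eq_mul_div, div_lt_iff₀ (by positivity)]
      have hn0' : (0:ℝ) ≤ n := Nat.cast_nonneg n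
      calc 2 * (200 * K ^ 2 * ((n:ℝ) + 1)) * (26 * K ^ 2 * ((n:ℝ) + 1 + 1)) ^ 3
          ≤ 2 * (200 * K ^ 2 * ((n:ℝ) + 2)) * (26 * K ^ 2 * ((n:ℝ) + 1 + 1)) ^ 3 := by
            gcongr; norm_num
        _ = 7030400 * K ^ 8 * (n + 2) ^ 4 := by ring
        _ < c * 2 ^ n := h1
    have hetadec : ∀ n : ℕ, η (n + 1) ≤ η n := by
      intro n
      rw [hη]
      simp only
      push_cast
      rw [div_le_div_iff₀ (by positivity) (by positivity), pow_succ 2 n]
      have hn0' : (0:ℝ) ≤ n := Nat.cast_nonneg n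
      have h2n : (0:ℝ) < 2 ^ n := by positivity
      have hK0 : (0:ℝ) < K ^ 2 := by positivity
      have : 200 * K ^ 2 * 2 ^ n * ((n:ℝ) + 1 + 1) ≤ 200 * K ^ 2 * 2 ^ n * (((n:ℝ) + 1) * 2) := by
        apply mul_le_mul_of_nonneg_left _ (by positivity)
        linarith
      linarith
    have hgapdec : ∀ n : ℕ, gap (n + 1) ≤ gap n := by
      intro n
      rw [hgap]
      simp only
      push_cast
      gcongr
      linarith
    have hηpos : ∀ n, 0 < η n := by
      intro n
      rw [hη]; simp only; positivity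
    have hη0 : Tendsto η atTop (𝓝 0) := by
      have h1 : Tendsto (fun n : ℕ => (n:ℝ) ^ 1 * (1 / 2 : ℝ) ^ n) atTop (𝓝 0) :=
        tendsto_pow_const_mul_const_pow_of_lt_one 1 (by norm_num) (by norm_num)
      have h2 : Tendsto (fun n : ℕ => (1 / 2 : ℝ) ^ n) atTop (𝓝 0) :=
        tendsto_pow_atTop_nhds_zero_of_lt_one (by norm_num) (by norm_num)
      have h3 := ((h1.add h2).const_mul (200 * K ^ 2))
      rw [add_zero, mul_zero] at h3
      refine h3.congr fun n => ?_
      rw [hη]
      simp only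
      rw [one_div, inv_pow]
      field_simp
    by_contra hcon
    push Not at hcon
    -- contradiction
    have hxsmall : x < gap n0 - η n0 := by
      have h1 : 2 * η n0 < gap n0 := lt_of_lt_of_le (hetan n0 le_rfl) (hgapdec n0)
      have h2 : x < gap n0 / 2 := by
        refine lt_of_lt_of_le hcon ?_
        rw [hgap]
        simp only
        rw [hKcast, div_div]
        have h3 : ((n0:ℝ) + 1) ≤ (B + 3) * Real.log (2 * K) := by
          have h4 : (n0:ℝ) < B * Real.log (2 * K) + 1 := Nat.ceil_lt_add_one (by positivity)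
          nlinarith
        calc min C0 (Real.log 2 ^ 4) / (K ^ 6 * Real.log (2 * K) ^ 3)
            ≤ C0 / (K ^ 6 * Real.log (2 * K) ^ 3) := by
              gcongr
              exact min_le_left _ _
          _ = c / ((26 * K ^ 2 * ((B + 3) * Real.log (2 * K))) ^ 3 * 2) := by
              rw [hC0]
              field_simp
              ring
          _ ≤ c / ((26 * K ^ 2 * ((n0:ℝ) + 1)) ^ 3 * 2) := by
              gcongr
      linarith
    have hfin := t6_chain η gap n0 (fun n hn => by
      have h1 := hetan n hn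
      have h2 := hetadec n
      linarith) hη0 x (fun n _ => halt n) hxsmall
    linarith

/-- approximation of Mahler measures by those of polynomials of small degree -/
theorem approx_small {k : ℕ} (hk : 2 ≤ k) (c : Fin k → ℤ) (hc : ∀ j, c j ≠ 0) (d : Fin k → ℕ)
    (hd : Function.Injective d) (n : ℕ) :
    ∃ a : Fin k → ℕ, Function.Injective a ∧ (∀ j, (a j : ℝ) ≤ Real.exp (26 * k ^ 2 * (n + 1))) ∧
      |lm (sp c a) - lm (sp c d)| ≤ 200 * k ^ 2 * (n + 1) / 2 ^ n := by
  obtain ⟨r, rfl⟩ : ∃ r, k = r + 1 := ⟨k - 1, by omega⟩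
  have hr : 1 ≤ r := by omega
  obtain ⟨a, hsim, ha⟩ := small_rep (k := r + 1) (m := mm r n) (one_le_mm r n) d
  have hainj := sim_inj (one_le_mm r n) hsim hd
  have hcmp := log_compare hr (one_le_mm r n) c hc a d hainj hd hsim (1 / 2 ^ n)
    (by positivity) (by
      rw [div_le_one (by positivity)]
      exact one_le_pow₀ (by norm_num))
  have hle := le_trans hcmp (t6_eta r n hr)
  refine ⟨a, hainj, ?_, ?_⟩
  · intro j
    have h2 := t6_deg r n
    set A : ℕ := 3 * ((4 * mm r n + 1) ^ (r + 1) + 1) * (2 * mm r n + 1) ^ (r + 1) with hA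
    have hA1 : 1 ≤ A := by
      have : 0 < A := by positivity
      exact this
    have hA1' : (1:ℝ) ≤ A := by exact_mod_cast hA1
    have h3 : (a j : ℝ) ≤ A := by exact_mod_cast ha j
    have h4 : (2 * (A:ℝ)) ≤ Real.exp (26 * (r + 1 : ℝ) ^ 2 * (n + 1)) := by
      rw [← Real.log_le_iff_le_exp (by positivity)]
      exact h2
    push_cast
    linarith
  · push_cast
    exact hle

end Pool.Agent.H338R2.AS
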